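import Pool.Agent.K6.H33.NT.Stm

set_option autoImplicit false
set_option linter.unusedSectionVars false
set_option linter.unusedVariables false

/-! # Pivots with coordinates which are not shifted (piece PQ of the project NT of helper33)

An adaptation of `Pool.Agent.TH192.MT.Piv` and of parts of `MU.Cone`, `MU.Rec2`. -/

namespace Pool.Agent.K6.H93.NT

open MvPolynomial Pool.Agent.W428.MOT Pool.Agent.TH192.DT Pool.Agent.TH192.MT
  Pool.Agent.TH192.MU Pool.Agent.K6.H33.NT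

variable {K : Type} [Field K] {T : ℕ} {π ι ι' : Type} [Fintype ι] [Fintype ι']
  {G : Fin T → MvPolynomial ι ℤ} {G' : Fin T → MvPolynomial ι' ℤ} (p : PivQ G G')

/-- the series of the coordinates -/
noncomputable def aj {N : ℕ} (z : Pt K (π ⊕ ι × Fin (N + 1))) (a : p.P ⊕ ι') :
    PowerSeries (AlgebraicClosure K) := ar (fun q => z (Sum.inr q)) (p.e a)

/-- the series which are subtracted -/
noncomputable def Gq {N : ℕ} (z : Pt K (π ⊕ ι × Fin (N + 1))) (y : ι') :
    PowerSeries (AlgebraicClosure K) :=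
  ev (aj p z) (p.g y) * (ev (fun a => aj p z (Sum.inl a)) p.u)⁻¹

theorem Gq_q {N : ℕ} (z : Pt K (π ⊕ ι × Fin (N + 1))) (y : ι') (hy : p.q y) :
    Gq p z y = 0 := by
  rw [Gq, p.gq y hy, map_zero, zero_mul]

/-- the shear -/
noncomputable def shq (s : ℤ) {N : ℕ} (z : Pt K (π ⊕ ι × Fin (N + 1))) :
    Pt K (π ⊕ ι × Fin (N + 1)) :=
  Sum.elim (fun a => z (Sum.inl a)) (fun q => match p.e.symm q.1 with
    | Sum.inl _ => z (Sum.inr q)
    | Sum.inr y => z (Sum.inr q) + (s : AlgebraicClosure K) *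
        PowerSeries.coeff (q.2 : ℕ) (Gq p z y))

theorem shq_inl (s : ℤ) {N : ℕ} (z : Pt K (π ⊕ ι × Fin (N + 1))) (q : p.P) (j : Fin (N + 1)) :
    shq p s z (Sum.inr (p.e (Sum.inl q), j)) = z (Sum.inr (p.e (Sum.inl q), j)) := by
  simp only [shq, Sum.elim_inr, Equiv.symm_apply_apply]

theorem shq_inr (s : ℤ) {N : ℕ} (z : Pt K (π ⊕ ι × Fin (N + 1))) (y : ι') (j : Fin (N + 1)) :
    shq p s z (Sum.inr (p.e (Sum.inr y), j)) = z (Sum.inr (p.e (Sum.inr y), j)) +
      (s : AlgebraicClosure K) * PowerSeries.coeff (j : ℕ) (Gq p z y) := by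
  simp only [shq, Sum.elim_inr, Equiv.symm_apply_apply]

theorem shq_q (s : ℤ) {N : ℕ} (z : Pt K (π ⊕ ι × Fin (N + 1))) (y : ι') (hy : p.q y)
    (j : Fin (N + 1)) :
    shq p s z (Sum.inr (p.e (Sum.inr y), j)) = z (Sum.inr (p.e (Sum.inr y), j)) := by
  rw [shq_inr, Gq_q p z y hy, map_zero, mul_zero, add_zero]

theorem aj_inl (s : ℤ) {N : ℕ} (z : Pt K (π ⊕ ι × Fin (N + 1))) (q : p.P) :
    aj p (shq p s z) (Sum.inl q) = aj p z (Sum.inl q) := by
  ext j
  rw [aj, aj, coeff_ar, coeff_ar]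
  split_ifs with h
  · exact shq_inl p s z q _
  · rfl

theorem aj_q (s : ℤ) {N : ℕ} (z : Pt K (π ⊕ ι × Fin (N + 1))) (y : ι') (hy : p.q y) :
    aj p (shq p s z) (Sum.inr y) = aj p z (Sum.inr y) := by
  ext j
  rw [aj, aj, coeff_ar, coeff_ar]
  split_ifs with h
  · exact shq_q p s z y hy _
  · rfl

theorem Gq_shq (s : ℤ) {N : ℕ} (z : Pt K (π ⊕ ι × Fin (N + 1))) (y : ι') :
    Gq p (shq p s z) y = Gq p z y := by
  have h1 : (fun a => aj p (shq p s z) (Sum.inl a)) = fun a => aj p z (Sum.inl a) :=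
    funext fun a => aj_inl p s z a
  rw [Gq, Gq, h1, p.gd _ (aj p (shq p s z)) (aj p z) (fun a => aj_inl p s z a)
    (fun y hy => aj_q p s z y hy) y]

theorem shq_shq (s s' : ℤ) (h : s + s' = 0) {N : ℕ} (z : Pt K (π ⊕ ι × Fin (N + 1))) :
    shq p s (shq p s' z) = z := by
  have h' : (s : AlgebraicClosure K) + s' = 0 := by
    rw [← Int.cast_add, h, Int.cast_zero]
  funext i
  rcases i with a | ⟨i, j⟩
  · rfl
  · obtain ⟨i, rfl⟩ := p.e.surjective i
    rcases i with q | y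
    · rw [shq_inl, shq_inl]
    · rw [shq_inr, shq_inr, Gq_shq]
      linear_combination PowerSeries.coeff (j : ℕ) (Gq p z y) * h'

/-- the parameters, the origin of the pivot block and the rest -/
def rsq {N : ℕ} (w : Pt K (π ⊕ ι × Fin (N + 1))) : Pt K ((π ⊕ p.P) ⊕ ι' × Fin (N + 1)) :=
  Sum.elim (Sum.elim (fun a => w (Sum.inl a)) (fun q => w (Sum.inr (p.e (Sum.inl q), 0))))
    (fun q => w (Sum.inr (p.e (Sum.inr q.1), q.2)))

/-- the origin, unshifted -/
def o0 (v : Pt K ((π ⊕ p.P) ⊕ (ι' ⊕ Fin T))) : p.P ⊕ ι' → AlgebraicClosure K :=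
  Sum.elim (fun q => v (Sum.inl (Sum.inr q))) (fun y => v (Sum.inr (Sum.inl y)))

/-- the origin -/
noncomputable def xq (v : Pt K ((π ⊕ p.P) ⊕ (ι' ⊕ Fin T))) : Pt K ι := fun i =>
  match p.e.symm i with
  | Sum.inl q => v (Sum.inl (Sum.inr q))
  | Sum.inr y => v (Sum.inr (Sum.inl y)) + ev (o0 p v) (p.g y) /
      ev (fun q => v (Sum.inl (Sum.inr q))) p.u

theorem xq_inl (v : Pt K ((π ⊕ p.P) ⊕ (ι' ⊕ Fin T))) (q : p.P) :
    xq p v (p.e (Sum.inl q)) = v (Sum.inl (Sum.inr q)) := by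
  simp only [xq, Equiv.symm_apply_apply]

theorem xq_inr (v : Pt K ((π ⊕ p.P) ⊕ (ι' ⊕ Fin T))) (y : ι') :
    xq p v (p.e (Sum.inr y)) = v (Sum.inr (Sum.inl y)) + ev (o0 p v) (p.g y) /
        ev (fun q => v (Sum.inl (Sum.inr q))) p.u := by
  simp only [xq, Equiv.symm_apply_apply]

/-- the data of the old jet, in terms of the data of the new jet -/
noncomputable def Pq (v : Pt K ((π ⊕ p.P) ⊕ (ι' ⊕ Fin T))) : Pt K (π ⊕ (ι ⊕ Fin T)) :=
  Sum.elim (fun a => v (Sum.inl (Sum.inl a))) (Sum.elim (xq p v) (fun l =>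
    (p.s l : AlgebraicClosure K) * (ev (fun q => v (Sum.inl (Sum.inr q))) p.u) ^ p.r l *
      v (Sum.inr (Sum.inr l))))

/-- `u ≠ 0` -/
def Uq (π : Type) : Set (Pt K ((π ⊕ p.P) ⊕ (ι' ⊕ Fin T))) :=
  {v | ev (fun q => v (Sum.inl (Sum.inr q))) p.u ≠ 0}

/-- the new condition -/
def pullq (V : Set (Pt K (π ⊕ (ι ⊕ Fin T)))) : Set (Pt K ((π ⊕ p.P) ⊕ (ι' ⊕ Fin T))) :=
  {v | v ∈ Uq p π ∧ Pq p v ∈ V}

theorem constr_Uq : Constr (Uq (K := K) p π) := by
  refine Constr.not (Constr.eqz ?_)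
  exact pf_aevalZ (φ := fun (v : Pt K ((π ⊕ p.P) ⊕ (ι' ⊕ Fin T))) (q : p.P) =>
    v (Sum.inl (Sum.inr q))) (fun i => IsPF.coord _) _

theorem rfq_u (S : Set (Pt K ((π ⊕ p.P) ⊕ (ι' ⊕ Fin T)))) (P : MvPolynomial p.P ℤ) :
    IsRF S (fun v => ev (fun q => v (Sum.inl (Sum.inr q))) P) :=
  rf_aevalZ (φ := fun (v : Pt K ((π ⊕ p.P) ⊕ (ι' ⊕ Fin T))) (q : p.P) =>
    v (Sum.inl (Sum.inr q))) (fun i => (IsPF.coord _).isRF _) _

theorem rfq_o (S : Set (Pt K ((π ⊕ p.P) ⊕ (ι' ⊕ Fin T)))) (P : MvPolynomial (p.P ⊕ ι') ℤ) :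
    IsRF S (fun v => ev (o0 p v) P) := by
  refine rf_aevalZ (φ := fun (v : Pt K ((π ⊕ p.P) ⊕ (ι' ⊕ Fin T))) (q : p.P ⊕ ι') =>
    o0 p v q) (fun i => ?_) _
  rcases i with q | y
  · exact (IsPF.coord (Sum.inl (Sum.inr q))).isRF _
  · exact (IsPF.coord (Sum.inr (Sum.inl y))).isRF _

theorem rfq_x0 (i : ι) : IsRF (Uq (K := K) p π) (fun v => xq p v i) := by
  obtain ⟨i, rfl⟩ := p.e.surjective i
  rcases i with q | y
  · simp only [xq_inl]
    exact (IsPF.coord _).isRF _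
  · simp only [xq_inr]
    exact ((IsPF.coord _).isRF _).add ((rfq_o p _ _).div (rfq_u p _ _) fun v hv => hv)

theorem constr_pullq {V : Set (Pt K (π ⊕ (ι ⊕ Fin T)))} (hV : Constr V) :
    Constr (pullq p V) := by
  refine constr_pre (constr_Uq p) (φ := Pq p) ?_ hV
  rintro (a | i | l)
  · exact (IsPF.coord _).isRF _
  · exact rfq_x0 p i
  · exact ((rf_int (p.s l)).mul (rf_pow (rfq_u p _ _) _)).mul ((IsPF.coord _).isRF _)

theorem gd_pullq {V : Set (Pt K (π ⊕ (ι ⊕ Fin T)))} (hV : Gd (pS ι G) V) :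
    Gd (pS ι' G') (pullq p V) := by
  rintro v ⟨hv, hv'⟩ t
  obtain ⟨l, hl, hl'⟩ := hV _ hv' t
  refine ⟨l, hl, fun h => hl' ?_⟩
  change (p.s l : AlgebraicClosure K) * (ev (fun q => v (Sum.inl (Sum.inr q))) p.u) ^ p.r l *
      v (Sum.inr (Sum.inr l)) = 0
  change v (Sum.inr (Sum.inr l)) = 0 at h
  rw [h, mul_zero]

theorem mem_Uq (v : Pt K ((π ⊕ p.P) ⊕ (ι' ⊕ Fin T))) :
    v ∈ Uq p π ↔ ev (fun q => v (Sum.inl (Sum.inr q))) p.u ≠ 0 := Iff.rfl

theorem mem_pullq (V : Set (Pt K (π ⊕ (ι ⊕ Fin T)))) (v : Pt K ((π ⊕ p.P) ⊕ (ι' ⊕ Fin T))) :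
    v ∈ pullq p V ↔ v ∈ Uq p π ∧ Pq p v ∈ V := Iff.rfl

theorem u_rsq (α : Fin T → ℕ) {N : ℕ} (w : Pt K (π ⊕ ι × Fin (N + 1))) (P : MvPolynomial p.P ℤ) :
    ev (fun q => dat (pS ι' G') α (rsq p w) (Sum.inl (Sum.inr q))) P =
      ev (fun q => w (Sum.inr (p.e (Sum.inl q), 0))) P := rfl

theorem u_shq (s : ℤ) {N : ℕ} (z : Pt K (π ⊕ ι × Fin (N + 1))) (P : MvPolynomial p.P ℤ) :
    ev (fun q => shq p s z (Sum.inr (p.e (Sum.inl q), 0))) P =
      ev (fun q => z (Sum.inr (p.e (Sum.inl q), 0))) P := by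
  simp only [shq_inl]

theorem u_datq (α : Fin T → ℕ) {N : ℕ} (z : Pt K (π ⊕ ι × Fin (N + 1)))
    (P : MvPolynomial p.P ℤ) :
    ev (fun q => dat (pS ι G) α z (Sum.inr (Sum.inl (p.e (Sum.inl q))))) P =
      ev (fun q => z (Sum.inr (p.e (Sum.inl q), 0))) P := rfl

section key

variable {N : ℕ} (z : Pt K (π ⊕ ι × Fin (N + 1)))

theorem keyq_iff {α : Fin T → ℕ} (hα : ∀ t, α t ≤ N)
    (V : Set (Pt K (π ⊕ (ι ⊕ Fin T))))
    (hU : ∀ v ∈ V, ev (fun q => v (Sum.inr (Sum.inl (p.e (Sum.inl q))))) p.u ≠ 0) :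
    z ∈ SS (pS ι G) V α N ↔ rsq p (shq p (-1) z) ∈ SS (pS ι' G') (pullq p V) α N := by
  -- the value of `u` at the origin
  by_cases hu : ev (fun q => z (Sum.inr (p.e (Sum.inl q), 0))) p.u = 0
  · constructor
    · intro h
      have h3 := hU _ ((mem_SS (pS ι G) V α N z).1 h).2
      rw [u_datq] at h3
      exact absurd hu h3
    · intro h
      exfalso
      have h3 := (mem_Uq p _).1 ((mem_pullq p V _).1 ((mem_SS (pS ι' G') _ α N _).1 h).2).1
      rw [u_rsq, u_shq] at h3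
      exact h3 hu
  set x : ι → PowerSeries (AlgebraicClosure K) := ar fun q => z (Sum.inr q) with hx
  set U : PowerSeries (AlgebraicClosure K) := ev (fun q => x (p.e (Sum.inl q))) p.u with hUdef
  have hx00 : ∀ i, PowerSeries.coeff 0 (x i) = z (Sum.inr (i, 0)) := fun i => by
    rw [hx, coeff_ar_zero]
  have hU0 : PowerSeries.coeff 0 U = ev (fun q => z (Sum.inr (p.e (Sum.inl q), 0))) p.u := by
    rw [hUdef, coeff_zero_aeval]
    simp only [hx00]
  have hU1 : PowerSeries.constantCoeff U ≠ 0 := by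
    rw [← PowerSeries.coeff_zero_eq_constantCoeff_apply, hU0]
    exact hu
  have hUu : IsUnit U := PowerSeries.isUnit_iff_constantCoeff.2 (isUnit_iff_ne_zero.2 hU1)
  have hUi : U * U⁻¹ = 1 := PowerSeries.mul_inv_cancel _ hU1
  have hGq : ∀ y, Gq p z y = ev (fun a => x (p.e a)) (p.g y) * U⁻¹ :=
    fun y => rfl
  set x2 : ι' → PowerSeries (AlgebraicClosure K) := fun y =>
    x (p.e (Sum.inr y)) - Gq p z y with hx2
  have hrel : ∀ y, U * x2 y = U * x (p.e (Sum.inr y)) -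
      ev (fun a => x (p.e a)) (p.g y) := by
    intro y
    rw [hx2]
    simp only
    rw [hGq]
    linear_combination (-ev (fun a => x (p.e a)) (p.g y)) * hUi
  have h1 := p.hc _ x x2 hUu hrel
  rw [← hUdef] at h1
  have hsu : ∀ t, IsUnit ((p.s t : ℤ) : PowerSeries (AlgebraicClosure K)) := by
    intro t
    refine IsUnit.of_mul_eq_one ((p.s t : ℤ) : PowerSeries (AlgebraicClosure K)) ?_
    rw [← Int.cast_mul, p.hs t, Int.cast_one]
  -- the jet of the Schur complement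
  set w := rsq p (shq p (-1) z) with hw
  have hcg : ∀ y, Cg N (ar (fun q => w (Sum.inr q)) y) (x2 y) := by
    intro y k hk
    rw [coeff_ar, dif_pos (by omega), hx2]
    change shq p (-1) z (Sum.inr (p.e (Sum.inr y), ⟨k, by omega⟩)) = _
    rw [shq_inr, map_sub, hx, coeff_ar, dif_pos (by omega)]
    push_cast
    ring
  have hunit : ∀ t : Fin T, ∀ a : PowerSeries (AlgebraicClosure K), ∀ k,
      Vn k ((p.s t : PowerSeries (AlgebraicClosure K)) * U ^ p.r t * a) ↔ Vn k a := by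
    intro t a k
    rw [vn_iff, vn_iff]
    exact ((hsu t).mul (hUu.pow _)).dvd_mul_left
  have hV1 : Van (pS ι G) α x ↔ Van (pS ι' G') α x2 := by
    constructor
    · intro h m
      have h3 := h m
      change Vn (α m) (ev x (G m)) at h3
      change Vn (α m) (ev x2 (G' m))
      rw [h1 m, hunit] at h3
      exact h3
    · intro h l
      have h3 := h l
      change Vn (α l) (ev x2 (G' l)) at h3
      change Vn (α l) (ev x (G l))
      rw [h1 l, hunit]
      exact h3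
  have hx0 : xq p (dat (pS ι' G') α w) = fun i => z (Sum.inr (i, 0)) := by
    funext i
    obtain ⟨i, rfl⟩ := p.e.surjective i
    rcases i with q | y
    · rw [xq_inl]
      exact shq_inl p (-1) z q 0
    · rw [xq_inr]
      have h7 : ev (o0 p (dat (pS ι' G') α w)) (p.g y) =
          ev (fun a => z (Sum.inr (p.e a, 0))) (p.g y) := by
        refine p.gd _ _ _ (fun a => shq_inl p (-1) z a 0) (fun y' hy' => ?_) y
        exact shq_q p (-1) z y' hy' 0
      rw [h7, hw, u_rsq, u_shq]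
      change shq p (-1) z (Sum.inr (p.e (Sum.inr y), 0)) + _ = _
      rw [shq_inr]
      have h3 : PowerSeries.coeff ((0 : Fin (N + 1)) : ℕ) (Gq p z y) =
          ev (fun a => z (Sum.inr (p.e a, 0))) (p.g y) /
            ev (fun q => z (Sum.inr (p.e (Sum.inl q), 0))) p.u := by
        have h4 : PowerSeries.coeff 0 (Gq p z y) * PowerSeries.coeff 0 U =
            PowerSeries.coeff 0 (ev (fun a => x (p.e a)) (p.g y)) := by
          rw [hGq]
          simp only [PowerSeries.coeff_zero_eq_constantCoeff_apply]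
          rw [← map_mul, mul_assoc, mul_comm U⁻¹ U, hUi, mul_one]
        rw [hU0, coeff_zero_aeval] at h4
        simp only [hx00] at h4
        change PowerSeries.coeff 0 (Gq p z y) = _
        rw [eq_div_iff hu, h4]
      rw [h3]
      push_cast
      ring
  have hlam : Van (pS ι' G') α x2 → dat (pS ι G) α z = Pq p (dat (pS ι' G') α w) := by
    intro hvan
    funext i
    rcases i with a | i | l
    · rfl
    · change z (Sum.inr (i, 0)) = xq p (dat (pS ι' G') α w) i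
      rw [hx0]
    · change lam (pS ι G) α x l = (p.s l : AlgebraicClosure K) *
        (ev (fun q => dat (pS ι' G') α w (Sum.inl (Sum.inr q))) p.u) ^ p.r l *
          lam (pS ι' G') α (ar fun q => w (Sum.inr q)) l
      rw [hw, u_rsq, u_shq, ← hw, lam_congr (pS ι' G') hcg hα]
      change PowerSeries.coeff (α l) (ev x (G l)) = _ * PowerSeries.coeff (α l) (ev x2 (G' l))
      have hv1 : Vn (α l) (ev x2 (G' l)) := hvan l
      rw [h1 l, coeff_mul_vn _ hv1]
      congr 1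
      rw [← hU0]
      simp only [PowerSeries.coeff_zero_eq_constantCoeff_apply, map_mul, map_pow, map_intCast]
  have hvan' : Van (pS ι' G') α (ar fun q => w (Sum.inr q)) ↔ Van (pS ι' G') α x2 :=
    van_congr (pS ι' G') hcg hα
  have hUw : dat (pS ι' G') α w ∈ Uq (K := K) p π := by
    rw [mem_Uq, hw, u_rsq, u_shq]
    exact hu
  rw [mem_SS, mem_SS, mem_pullq]
  constructor
  · rintro ⟨h3, h4⟩
    have h5 : Van (pS ι' G') α x2 := hV1.1 h3
    refine ⟨hvan'.2 h5, hUw, ?_⟩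
    rw [← hlam h5]
    exact h4
  · rintro ⟨h3, h4, h5⟩
    have h6 : Van (pS ι' G') α x2 := hvan'.1 h3
    refine ⟨hV1.2 h6, ?_⟩
    rw [hlam h6]
    exact h5

end key

/-- the coordinates after the pivot -/
def eQ (π : Type) (N : ℕ) : ((π ⊕ p.P) ⊕ ι' × Fin (N + 1)) ⊕ (p.P × Fin N) ≃
    π ⊕ ι × Fin (N + 1) where
  toFun := fun s => match s with
    | Sum.inl (Sum.inl (Sum.inl a)) => Sum.inl a
    | Sum.inl (Sum.inl (Sum.inr q)) => Sum.inr (p.e (Sum.inl q), 0)
    | Sum.inl (Sum.inr y) => Sum.inr (p.e (Sum.inr y.1), y.2)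
    | Sum.inr q => Sum.inr (p.e (Sum.inl q.1), q.2.succ)
  invFun := fun s => match s with
    | Sum.inl a => Sum.inl (Sum.inl (Sum.inl a))
    | Sum.inr (i, j) => Sum.elim (fun q => Fin.cases (motive := fun _ =>
        ((π ⊕ p.P) ⊕ ι' × Fin (N + 1)) ⊕ (p.P × Fin N)) (Sum.inl (Sum.inl (Sum.inr q)))
          (fun j => Sum.inr (q, j)) j) (fun y => Sum.inl (Sum.inr (y, j))) (p.e.symm i)
  left_inv := by
    rintro (((a | q) | ⟨y, j⟩) | ⟨q, j⟩)
    · rfl
    · simp only [Equiv.symm_apply_apply, Sum.elim_inl, Fin.cases_zero]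
    · simp only [Equiv.symm_apply_apply, Sum.elim_inr]
    · simp only [Equiv.symm_apply_apply, Sum.elim_inl, Fin.cases_succ]
  right_inv := by
    rintro (a | ⟨i, j⟩)
    · rfl
    · obtain ⟨i, rfl⟩ := p.e.surjective i
      rcases i with q | y
      · refine Fin.cases ?_ (fun j => ?_) j
        · simp only [Equiv.symm_apply_apply, Sum.elim_inl, Fin.cases_zero]
        · simp only [Equiv.symm_apply_apply, Sum.elim_inl, Fin.cases_succ]
      · simp only [Equiv.symm_apply_apply, Sum.elim_inr]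

variable {R : Type} [CommRing R] (M : Meas K R) [Fintype π]

theorem pf_rsq {N : ℕ} (i : (π ⊕ p.P) ⊕ ι' × Fin (N + 1)) :
    IsPF (fun w : Pt K (π ⊕ ι × Fin (N + 1)) => rsq p w i) := by
  rcases i with (a | q) | y <;> exact IsPF.coord _

theorem rf_shq (s : ℤ) {N : ℕ} (S : Set (Pt K (π ⊕ ι × Fin (N + 1))))
    (hS : ∀ z ∈ S, ev (fun q => z (Sum.inr (p.e (Sum.inl q), 0))) p.u ≠ 0) :
    RegularOn S (shq p s) := by
  have hP : ∀ (P : MvPolynomial p.P ℤ), IsRA S (fun z => ev (fun a => aj p z (Sum.inl a)) P) := by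
    intro P
    refine ra_aevalZ (φ := fun z a => aj p z (Sum.inl a)) (fun i j => ?_) P
    simp only [aj, coeff_ar]
    split_ifs
    · exact (IsPF.coord _).isRF _
    · exact IsPF.zero.isRF _
  have hP' : ∀ (P : MvPolynomial (p.P ⊕ ι') ℤ), IsRA S (fun z => ev (aj p z) P) := by
    intro P
    refine ra_aevalZ (φ := fun z a => aj p z a) (fun i j => ?_) P
    simp only [aj, coeff_ar]
    split_ifs
    · exact (IsPF.coord _).isRF _
    · exact IsPF.zero.isRF _
  rintro (a | ⟨i, j⟩)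
  · exact (IsPF.coord _).isRF _
  · obtain ⟨i, rfl⟩ := p.e.surjective i
    rcases i with q | y
    · simp only [shq_inl]
      exact (IsPF.coord _).isRF _
    · simp only [shq_inr]
      refine IsRF.add ((IsPF.coord _).isRF _) ((rf_int s).mul ?_)
      refine ra_mul (hP' _) (ra_inv (hP _) fun z hz => ?_) _
      rw [coeff_zero_aeval]
      simp only [aj, coeff_ar_zero]
      exact hS z hz

theorem mm_pivq (v : R) (hv : M.L * v = 1) {V : Set (Pt K (π ⊕ (ι ⊕ Fin T)))} (hV : Constr V)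
    (hU : ∀ v ∈ V, ev (fun q => v (Sum.inr (Sum.inl (p.e (Sum.inl q))))) p.u ≠ 0)
    (α : Fin T → ℕ) : mm M v (pS ι G) V α = mm M v (pS ι' G') (pullq p V) α := by
  set N := ∑ t, α t with hN
  have h0 : ∀ t, α t ≤ N := fun t => Finset.single_le_sum (f := α)
    (fun _ _ => Nat.zero_le _) (Finset.mem_univ t)
  have hVp := constr_pullq p hV
  rw [← mm_eq M v hv (pS ι G) hV α N h0, ← mm_eq M v hv (pS ι' G') hVp α N h0]
  have hS1 : Constr {w : Pt K (π ⊕ ι × Fin (N + 1)) |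
      rsq p w ∈ SS (pS ι' G') (pullq p V) α N} :=
    (constr_SS (pS ι' G') hVp α N).preimage _ (pf_rsq p)
  have h1 : M.χ _ (SS (pS ι G) V α N) =
      M.χ _ {w : Pt K (π ⊕ ι × Fin (N + 1)) | rsq p w ∈ SS (pS ι' G') (pullq p V) α N} := by
    refine M.iso _ _ (constr_SS (pS ι G) hV _ _) hS1 (shq p (-1)) (shq p 1) (rf_shq p _ _ ?_)
      (rf_shq p _ _ ?_) ?_ ?_ (fun z _ => shq_shq p 1 (-1) (by norm_num) z)
      (fun z _ => shq_shq p (-1) 1 (by norm_num) z)
    · intro z hz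
      have h3 := hU _ ((mem_SS (pS ι G) V α N z).1 hz).2
      rwa [u_datq] at h3
    · intro w hw
      have h3 := (mem_Uq p _).1
        ((mem_pullq p V _).1 ((mem_SS (pS ι' G') _ α N _).1 hw).2).1
      rwa [u_rsq] at h3
    · intro z hz
      exact (keyq_iff p z h0 V hU).1 hz
    · intro w hw
      rw [keyq_iff p _ h0 V hU, shq_shq p (-1) 1 (by norm_num)]
      exact hw
  have h2 : M.χ _ {w : Pt K (π ⊕ ι × Fin (N + 1)) |
        rsq p w ∈ SS (pS ι' G') (pullq p V) α N} =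
      M.χ _ (SS (pS ι' G') (pullq p V) α N) * M.L ^ (Fintype.card (p.P × Fin N)) := by
    refine chi_split M (eQ p π N) _ _ (constr_SS (pS ι' G') hVp α N) fun z => ?_
    have h3 : (fun i => z (eQ p π N (Sum.inl i))) = rsq p z := by
      funext i
      rcases i with (a | q) | y <;> rfl
    rw [h3]
    rfl
  have h4 : Fintype.card ι = Fintype.card p.P + Fintype.card ι' := by
    rw [← Fintype.card_congr p.e, Fintype.card_sum]
  have h6 : Fintype.card (pS ι G).ι = Fintype.card p.P + Fintype.card ι' := h4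
  have h7 : Fintype.card (pS ι' G').ι = Fintype.card ι' := rfl
  rw [h1, h2, h6, h7, Fintype.card_prod, Fintype.card_fin, Nat.mul_add, pow_add,
    Nat.mul_comm (Fintype.card p.P) N]
  have h5 : M.L ^ (N * Fintype.card p.P) * v ^ (N * Fintype.card p.P) = 1 := by
    rw [← mul_pow, hv, one_pow]
  linear_combination (M.χ _ (SS (pS ι' G') (pullq p V) α N) * v ^ (N * Fintype.card ι')) * h5

omit [Fintype π] in
theorem cone_pullq {V : Set (Pt K (π ⊕ (ι ⊕ Fin T)))} (hV : Cone (pS ι G) V) :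
    Cone (pS ι' G') (pullq p V) := by
  rintro v ⟨hv, hv'⟩ μ hμ
  refine ⟨hv, ?_⟩
  have h1 : Pq p (scL (pS ι' G') μ v) = scL (pS ι G) μ (Pq p v) := by
    funext i
    rcases i with a | i | l
    · rfl
    · rfl
    · change (p.s l : AlgebraicClosure K) * (ev (fun q => v (Sum.inl (Sum.inr q))) p.u) ^ p.r l *
        (μ l * v (Sum.inr (Sum.inr l))) = μ l * ((p.s l : AlgebraicClosure K) *
          (ev (fun q => v (Sum.inl (Sum.inr q))) p.u) ^ p.r l * v (Sum.inr (Sum.inr l)))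
      ring
  rw [h1]
  exact hV _ hv' μ hμ

section rec

variable {R : Type} [CommRing R] {u : Rˣ} {M : Meas K R} {a : Fin T → ℕ} (hu : M.L = (u : R))
include hu

/-- the part where a pivot does not vanish -/
theorem rl_pivq {D : Set (ℤ × ℤ)} (hY : RL u M a D (pS ι' G'))
    (π : Type) [Fintype π] (V : Set (Pt K (π ⊕ (ι ⊕ Fin T)))) (hV : Constr V)
    (hG : Gd (pS ι G) V) (hC : Cone (pS ι G) V)
    (hU : ∀ v ∈ V, ev (fun q => v (Sum.inr (Sum.inl (p.e (Sum.inl q))))) p.u ≠ 0) :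
    gf a (mm M (((u⁻¹ : Rˣ) : R)) (pS ι G) V) ∈ ratL u D := by
  have h1 : mm M (((u⁻¹ : Rˣ) : R)) (pS ι G) V =
      mm M (((u⁻¹ : Rˣ) : R)) (pS ι' G') (pullq p V) :=
    funext fun α => mm_pivq p M _ (hv hu) hV hU α
  rw [h1]
  exact hY (π ⊕ p.P) _ (constr_pullq p hV) (gd_pullq p hG) (cone_pullq p hC)

end rec

/-- Piece PQ. -/
theorem pieceQ : S_PQ := by
  intro K _ T R _ u M a hu D ι _ G B ι' _ G' p hY s
  classical
  induction s using Finset.induction_on with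
  | empty =>
    intro π _ V hV hG hC h
    rw [gf_empty (a := a) (X := pS ι G) hu D π V]
    · exact Subalgebra.zero_mem _
    · rw [Set.eq_empty_iff_forall_notMem]
      intro v hv
      obtain ⟨b, hb, _⟩ := h v hv
      exact absurd hb (Finset.notMem_empty b)
  | insert b s hb ih =>
    intro π _ V hV hG hC h
    set W : Set (Pt K (π ⊕ (ι ⊕ Fin T))) :=
      {v | ev (fun q => v (Sum.inr (Sum.inl ((p b).e (Sum.inl q))))) (p b).u = 0} with hW
    have hWc : Constr W := Constr.eqz (pf_aevalZ (φ := fun (v : Pt K (π ⊕ (ι ⊕ Fin T)))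
      (q : (p b).P) => v (Sum.inr (Sum.inl ((p b).e (Sum.inl q))))) (fun i => IsPF.coord _) _)
    have hWC : Cone (pS ι G) W :=
      cone_origin (pS ι G) fun x => ev (fun q => x ((p b).e (Sum.inl q))) (p b).u = 0
    have hWC' : Cone (pS ι G) Wᶜ :=
      cone_origin (pS ι G) fun x => ¬ ev (fun q => x ((p b).e (Sum.inl q))) (p b).u = 0
    have h1 : V = (V ∩ Wᶜ) ∪ (V ∩ W) := by
      rw [Set.union_comm, Set.inter_union_compl]
    rw [h1, rt_union (X := pS ι G) (D := D) hu π (hV.inter hWc.compl) (hV.inter hWc) (by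
      rw [Set.disjoint_left]
      rintro v ⟨_, h2⟩ ⟨_, h3⟩
      exact h2 h3)]
    refine Subalgebra.add_mem _ ?_ ?_
    · exact rl_pivq (p b) hu (hY b) π _ (hV.inter hWc.compl) (fun v hv => hG v hv.1)
        (cone_inter (pS ι G) hC hWC') fun v hv => hv.2
    · refine ih π _ (hV.inter hWc) (fun v hv => hG v hv.1)
        (cone_inter (pS ι G) hC hWC) fun v hv => ?_
      obtain ⟨b', hb', h2⟩ := h v hv.1
      rcases Finset.mem_insert.1 hb' with rfl | h3
      · exact absurd hv.2 h2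
      · exact ⟨b', h3, h2⟩

end Pool.Agent.K6.H93.NT
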